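import Pool.Agent.Helper41.LD3.Defs
import Pool.Agent.Helper41.LD.Fin

/-!
# Project LD3, block ASM: the sum over the stages
-/

set_option autoImplicit false

namespace Pool.Agent.Helper31.LD3

open Set Filter Topology
open Pool.Agent.Helper41.LD (DiscLe Kk Kk_mono Kk_ge log_le exists_block)

/-- adding a block of terms -/
theorem DiscLe_block {t : ℕ → ℝ} {a b : ℕ} {E E' : ℝ} (h : DiscLe t a E) (hab : a ≤ b)
    (hb : ∀ α γ : ℝ, 0 ≤ α → α ≤ γ → γ ≤ 1 →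
      |(((Finset.Ico a b).filter fun n : ℕ => α ≤ Int.fract (t n) ∧ Int.fract (t n) < γ).card : ℝ) -
        ((b : ℝ) - a) * (γ - α)| ≤ E') : DiscLe t b (E + E') := by
  classical
  intro α γ h0 h1 h2
  have h3 := abs_le.1 (h α γ h0 h1 h2)
  have h4 := abs_le.1 (hb α γ h0 h1 h2)
  set P : ℕ → Prop := fun j => α ≤ Int.fract (t j) ∧ Int.fract (t j) < γ with hP
  have h5 : ((Finset.range b).filter P).card = ((Finset.range a).filter P).card + ((Finset.Ico a b).filter P).card := by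
    rw [Finset.range_eq_Ico, ← Finset.Ico_union_Ico_eq_Ico (Nat.zero_le a) hab, Finset.filter_union,
      Finset.card_union_of_disjoint
        (Finset.disjoint_filter_filter (p := P) (q := P) (Finset.Ico_disjoint_Ico_consecutive 0 a b)),
      Finset.range_eq_Ico]
  have h5' : (((Finset.range b).filter P).card : ℝ) = ((Finset.range a).filter P).card + ((Finset.Ico a b).filter P).card := by
    exact_mod_cast h5
  rw [h5', abs_le]
  constructor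
  · nlinarith [h3.1, h4.1]
  · nlinarith [h3.2, h4.2]

/-- the trivial bound -/
theorem DiscLe_self (t : ℕ → ℝ) (n : ℕ) : DiscLe t n n := by
  have h0 : DiscLe t 0 0 := by
    intro α γ _ _ _
    simp
  have h1 := h0.add n
  simpa using h1

/-- the stage containing `k` -/
theorem exists_stage {ks : ℕ → ℕ} (hks : StrictMono ks) {i k : ℕ} (hk : ks i ≤ k) :
    ∃ σ, i ≤ σ ∧ ks σ ≤ k ∧ k ≤ ks (σ + 1) := by
  have ht : Tendsto (fun j => ks (i + j)) atTop atTop :=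
    hks.tendsto_atTop.comp (tendsto_atTop_mono (fun j => Nat.le_add_left j i) tendsto_id)
  have hm : Monotone fun j => ks (i + j) := fun a b hab => hks.monotone (by omega)
  obtain ⟨j, h1, h2⟩ := exists_block hm ht (N := k) (by simpa using hk)
  refine ⟨i + j, Nat.le_add_right _ _, h1, ?_⟩
  have : k < ks (i + (j + 1)) := h2
  have e : i + (j + 1) = i + j + 1 := by ring
  rw [e] at this
  exact this.le

theorem asm {t : ℕ → ℝ} {κ K₀ : ℕ} (hK₀ : 1 ≤ K₀) {ν : ℕ → ℕ} (hν : Monotone ν) {C₁ C₂ : ℕ}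
    (hν1 : ∀ k, ν (k + 1) ≤ ν k + C₁ * Kk K₀ k ^ (2 * κ + 1)) (hν2 : ∀ k, k ≤ C₂ * (ν k + 1)) {ks : ℕ → ℕ} (hks : StrictMono ks)
    {G : ℕ → ℕ} {i : ℕ} (hG : ∀ σ ≥ i, ∑ σ' ∈ Finset.range (σ + 1), G σ' ≤ Kk K₀ (ks σ))
    (hE : ∀ σ ≥ i, ∀ k, ks σ ≤ k → k ≤ ks (σ + 1) → ∀ α γ : ℝ, 0 ≤ α → α ≤ γ → γ ≤ 1 →
      |(((Finset.Ico (ν (ks σ)) (ν k)).filter fun n : ℕ => α ≤ Int.fract (t n) ∧ Int.fract (t n) < γ).card : ℝ) -
        ((ν k : ℝ) - ν (ks σ)) * (γ - α)| ≤ G σ * (Kk K₀ k : ℝ) ^ (2 * κ + 4)) :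
    ∃ N₀ : ℕ, ∀ N ≥ N₀, DiscLe t N (Real.log N ^ (2 * κ + 6)) := by
  -- the discrepancy at the beginning of the stages
  have hst : ∀ j, DiscLe t (ν (ks (i + j))) (ν (ks i) +
      (∑ σ' ∈ Finset.range (i + j), (G σ' : ℝ)) * (Kk K₀ (ks (i + j)) : ℝ) ^ (2 * κ + 4)) := by
    intro j
    induction j with
    | zero =>
      refine (DiscLe_self t _).mono ?_
      have : (0 : ℝ) ≤ (∑ σ' ∈ Finset.range (i + 0), (G σ' : ℝ)) * (Kk K₀ (ks (i + 0)) : ℝ) ^ (2 * κ + 4) :=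
        mul_nonneg (Finset.sum_nonneg fun _ _ => Nat.cast_nonneg _) (by positivity)
      simp only [Nat.add_zero] at this ⊢
      linarith
    | succ j ih =>
      have hle : ks (i + j) ≤ ks (i + j + 1) := hks.monotone (Nat.le_succ _)
      have h1 := DiscLe_block ih (hν hle) (hE (i + j) (Nat.le_add_right _ _) (ks (i + j + 1)) hle le_rfl)
      have e : i + (j + 1) = i + j + 1 := by ring
      rw [e]
      refine h1.mono ?_
      rw [Finset.sum_range_succ]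
      have hKK : (Kk K₀ (ks (i + j)) : ℝ) ^ (2 * κ + 4) ≤ (Kk K₀ (ks (i + j + 1)) : ℝ) ^ (2 * κ + 4) := by
        have : (Kk K₀ (ks (i + j)) : ℝ) ≤ Kk K₀ (ks (i + j + 1)) := by exact_mod_cast Kk_mono K₀ hle
        gcongr
      have hS : (0 : ℝ) ≤ ∑ σ' ∈ Finset.range (i + j), (G σ' : ℝ) := Finset.sum_nonneg fun _ _ => Nat.cast_nonneg _
      nlinarith [mul_le_mul_of_nonneg_left hKK hS]
  -- the discrepancy at all `ν k`
  have hk : ∀ k, ks i ≤ k → DiscLe t (ν k) ((ν (ks i) + 1) * (Kk K₀ k : ℝ) ^ (2 * κ + 5)) := by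
    intro k hik
    obtain ⟨σ, h1, h2, h3⟩ := exists_stage hks hik
    obtain ⟨j, rfl⟩ := Nat.exists_eq_add_of_le h1
    have h4 := DiscLe_block (hst j) (hν h2) (hE (i + j) h1 k h2 h3)
    refine h4.mono ?_
    have hK1 : (1 : ℝ) ≤ Kk K₀ k := by exact_mod_cast hK₀.trans (Kk_ge K₀ k)
    have hKK : (Kk K₀ (ks (i + j)) : ℝ) ≤ Kk K₀ k := by exact_mod_cast Kk_mono K₀ h2
    have hKp : (Kk K₀ (ks (i + j)) : ℝ) ^ (2 * κ + 4) ≤ (Kk K₀ k : ℝ) ^ (2 * κ + 4) := by gcongr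
    have hS : (0 : ℝ) ≤ ∑ σ' ∈ Finset.range (i + j), (G σ' : ℝ) := Finset.sum_nonneg fun _ _ => Nat.cast_nonneg _
    have hG' : (∑ σ' ∈ Finset.range (i + j), (G σ' : ℝ)) + G (i + j) ≤ Kk K₀ k := by
      rw [← Finset.sum_range_succ]
      refine le_trans ?_ hKK
      exact_mod_cast hG (i + j) h1
    have hp0 : (0 : ℝ) ≤ (Kk K₀ k : ℝ) ^ (2 * κ + 4) := by positivity
    have hp5 : (Kk K₀ k : ℝ) ^ (2 * κ + 5) = (Kk K₀ k : ℝ) ^ (2 * κ + 4) * Kk K₀ k := by ring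
    have hp1 : (1 : ℝ) ≤ (Kk K₀ k : ℝ) ^ (2 * κ + 5) := one_le_pow₀ hK1
    have hν0 : (0 : ℝ) ≤ ν (ks i) := Nat.cast_nonneg _
    have h5 := mul_le_mul_of_nonneg_left hKp hS
    have h6 := mul_le_mul_of_nonneg_left hG' hp0
    have h7 : (ν (ks i) : ℝ) ≤ ν (ks i) * (Kk K₀ k : ℝ) ^ (2 * κ + 5) := le_mul_of_one_le_right hν0 hp1
    calc (ν (ks i) : ℝ) + (∑ σ' ∈ Finset.range (i + j), (G σ' : ℝ)) * (Kk K₀ (ks (i + j)) : ℝ) ^ (2 * κ + 4) +
          G (i + j) * (Kk K₀ k : ℝ) ^ (2 * κ + 4)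
        ≤ ν (ks i) * (Kk K₀ k : ℝ) ^ (2 * κ + 5) + (∑ σ' ∈ Finset.range (i + j), (G σ' : ℝ)) * (Kk K₀ k : ℝ) ^ (2 * κ + 4) +
          G (i + j) * (Kk K₀ k : ℝ) ^ (2 * κ + 4) := by linarith
      _ = ν (ks i) * (Kk K₀ k : ℝ) ^ (2 * κ + 5) +
          (Kk K₀ k : ℝ) ^ (2 * κ + 4) * ((∑ σ' ∈ Finset.range (i + j), (G σ' : ℝ)) + G (i + j)) := by ring
      _ ≤ ν (ks i) * (Kk K₀ k : ℝ) ^ (2 * κ + 5) + (Kk K₀ k : ℝ) ^ (2 * κ + 4) * Kk K₀ k := by linarith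
      _ = (ν (ks i) + 1) * (Kk K₀ k : ℝ) ^ (2 * κ + 5) := by rw [hp5]; ring
  -- the final bound
  have hlim : Tendsto (fun N : ℕ => Real.log N) atTop atTop := Real.tendsto_log_atTop.comp tendsto_natCast_atTop_atTop
  have hνt : Tendsto ν atTop atTop := by
    refine tendsto_atTop_atTop_of_monotone hν fun b => ⟨C₂ * (b + 1), ?_⟩
    by_contra hcon
    push Not at hcon
    rcases Nat.eq_zero_or_pos C₂ with h0 | h0
    · have := hν2 1
      rw [h0] at this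
      omega
    · have h1 := hν2 (C₂ * (b + 1))
      have h2 : b + 1 ≤ ν (C₂ * (b + 1)) + 1 := Nat.le_of_mul_le_mul_left h1 h0
      omega
  have hev : ∀ᶠ N : ℕ in atTop, ((ν (ks i) : ℝ) + 1 + C₁) * 11 ^ (2 * κ + 5) ≤ Real.log N ∧ (K₀ : ℝ) ≤ Real.log N ∧ 1 ≤ N ∧
      ν (ks i) ≤ N ∧ C₂ ≤ N :=
    (hlim.eventually_ge_atTop _).and ((hlim.eventually_ge_atTop _).and ((eventually_ge_atTop 1).and
      ((eventually_ge_atTop (ν (ks i))).and (eventually_ge_atTop C₂))))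
  obtain ⟨N₀, hN₀⟩ := eventually_atTop.1 hev
  refine ⟨N₀, fun N hN => ?_⟩
  obtain ⟨g1, g2, g3, g4, g5⟩ := hN₀ N hN
  have hm' : Monotone fun j => ν (ks i + j) := fun a b hab => hν (by omega)
  have ht' : Tendsto (fun j => ν (ks i + j)) atTop atTop :=
    hνt.comp (tendsto_atTop_mono (fun j => Nat.le_add_left j (ks i)) tendsto_id)
  obtain ⟨j, hj1, hj2⟩ := exists_block hm' ht' (N := N) (by simpa using g4)
  set k := ks i + j with hkdef
  have hk1 : ν k ≤ N := hj1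
  have hk2 : N < ν (k + 1) := by
    have : N < ν (ks i + (j + 1)) := hj2
    have e : ks i + (j + 1) = k + 1 := by rw [hkdef]; ring
    rwa [e] at this
  obtain ⟨m, rfl⟩ := Nat.exists_eq_add_of_le hk1
  refine ((hk k (Nat.le_add_right _ _)).add m).mono ?_
  set N := ν k + m with hNdef
  set K := Kk K₀ k with hK
  have hK1 : 1 ≤ K := hK₀.trans (Kk_ge K₀ k)
  have hKr : (1 : ℝ) ≤ K := by exact_mod_cast hK1
  have hm : m ≤ C₁ * K ^ (2 * κ + 1) := by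
    have := hν1 k
    rw [← hK] at this
    omega
  have hm' : (m : ℝ) ≤ C₁ * (K : ℝ) ^ (2 * κ + 5) := by
    have h1 : (m : ℝ) ≤ C₁ * (K : ℝ) ^ (2 * κ + 1) := by exact_mod_cast hm
    refine h1.trans ?_
    have h2 : (K : ℝ) ^ (2 * κ + 1) ≤ (K : ℝ) ^ (2 * κ + 5) := pow_le_pow_right₀ hKr (by omega)
    exact mul_le_mul_of_nonneg_left h2 (Nat.cast_nonneg _)
  have hNr : (1 : ℝ) ≤ N := by exact_mod_cast g3
  have hlog0 : 0 ≤ Real.log N := Real.log_nonneg hNr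
  have hKN : (K : ℝ) ≤ 11 * Real.log N := by
    have h1 : k ≤ C₂ * (N + 1) := (hν2 k).trans (Nat.mul_le_mul_left _ (by omega))
    have h1' : k + 1 ≤ (N + 1) ^ 2 := by nlinarith
    have h2 : Nat.log 2 (k + 1) ≤ 2 * (Nat.log 2 (N + 1) + 1) := by
      have h3 : N + 1 < 2 ^ (Nat.log 2 (N + 1) + 1) := Nat.lt_pow_succ_log_self (by norm_num) _
      have h4 : k + 1 < 2 ^ (2 * (Nat.log 2 (N + 1) + 1)) := by
        calc k + 1 ≤ (N + 1) ^ 2 := h1'
          _ < (2 ^ (Nat.log 2 (N + 1) + 1)) ^ 2 := Nat.pow_lt_pow_left h3 (by norm_num)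
          _ = 2 ^ (2 * (Nat.log 2 (N + 1) + 1)) := by rw [← pow_mul]; ring_nf
      exact (Nat.log_lt_of_lt_pow (by omega) h4).le
    have h3 : (K : ℝ) = K₀ + (Nat.log 2 (k + 1) : ℝ) := by
      rw [hK]; unfold Kk; push_cast; ring
    have h4 : (Nat.log 2 (k + 1) : ℝ) ≤ 2 * ((Nat.log 2 (N + 1) : ℝ) + 1) := by exact_mod_cast h2
    have h5 := log_le N
    have h9 : (1 : ℝ) ≤ (K₀ : ℝ) := by exact_mod_cast hK₀
    have h6 : Real.log (N + 1) ≤ 2 * Real.log N := by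
      have h7 : (N : ℝ) + 1 ≤ (N : ℝ) ^ 2 := by
        have h8 : (2 : ℝ) ≤ N := by
          have : (1 : ℝ) ≤ Real.log N := by linarith
          have h10 : Real.exp 1 ≤ N := by
            rw [← Real.exp_log (show (0 : ℝ) < N by linarith)]
            exact Real.exp_le_exp.2 this
          have := Real.add_one_le_exp (1 : ℝ)
          linarith
        nlinarith
      calc Real.log (N + 1) ≤ Real.log ((N : ℝ) ^ 2) := Real.log_le_log (by positivity) h7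
        _ = 2 * Real.log N := by rw [Real.log_pow]; norm_num
    linarith
  calc ((ν (ks i) : ℝ) + 1) * (K : ℝ) ^ (2 * κ + 5) + m ≤ (ν (ks i) + 1) * (K : ℝ) ^ (2 * κ + 5) + C₁ * (K : ℝ) ^ (2 * κ + 5) := by linarith
    _ = ((ν (ks i) : ℝ) + 1 + C₁) * (K : ℝ) ^ (2 * κ + 5) := by ring
    _ ≤ ((ν (ks i) : ℝ) + 1 + C₁) * (11 * Real.log N) ^ (2 * κ + 5) := by gcongr
    _ = (((ν (ks i) : ℝ) + 1 + C₁) * 11 ^ (2 * κ + 5)) * Real.log N ^ (2 * κ + 5) := by rw [mul_pow]; ring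
    _ ≤ Real.log N * Real.log N ^ (2 * κ + 5) := by gcongr
    _ = Real.log N ^ (2 * κ + 6) := by ring

end Pool.Agent.Helper31.LD3
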