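import Pool.Agent.Helper41.LD3.Cst

/-!
# Project LD3, block EVB2: the test exponents
-/

set_option autoImplicit false

namespace Pool.Agent.Helper31.LD3

open Set MeasureTheory Filter Topology
open Pool.Agent.Helper41.LD (Kk)
open Pool.Agent.Helper41.LD2 (EqA)
open Pool.Agent.Helper41.LD3 (Cst)

variable {κ : ℕ} {τ : ℕ → ℝ} {g Q R CF DF Cb G : ℕ}

/-- the first exponent beyond a level -/
theorem first_exponent {t ℓ X : ℝ} {DF : ℕ} (ht : 1 < t) (htD : t ≤ 2 ^ DF) (hℓ : 0 < ℓ) (hℓ1 : ℓ ≤ 1) (hX : 1 ≤ X) :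
    ∃ u₀ : ℕ, X ≤ t ^ u₀ * ℓ ∧ t ^ u₀ * ℓ ≤ X * 2 ^ DF := by
  classical
  have hex : ∃ u : ℕ, X ≤ t ^ u * ℓ := by
    obtain ⟨n, hn⟩ := pow_unbounded_of_one_lt (X / ℓ) ht
    exact ⟨n, ((div_lt_iff₀ hℓ).1 hn).le⟩
  have hD : (1 : ℝ) ≤ 2 ^ DF := one_le_pow₀ (by norm_num)
  refine ⟨Nat.find hex, Nat.find_spec hex, ?_⟩
  rcases Nat.eq_zero_or_pos (Nat.find hex) with h0 | h0
  · rw [h0, pow_zero, one_mul]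
    exact hℓ1.trans (one_le_mul_of_one_le_of_one_le hX hD)
  · obtain ⟨j, hj⟩ := Nat.exists_eq_succ_of_ne_zero (by omega : Nat.find hex ≠ 0)
    have h1 : ¬ X ≤ t ^ j * ℓ := Nat.find_min hex (by omega)
    have h2 : t ^ j * ℓ < X := not_le.1 h1
    rw [hj]
    have h3 : t ^ (j + 1) * ℓ = (t ^ j * ℓ) * t := by ring
    calc t ^ (j + 1) * ℓ = (t ^ j * ℓ) * t := h3
      _ ≤ X * 2 ^ DF := mul_le_mul h2.le htD (by linarith) (by linarith)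

theorem ev_test (hκ : 1 ≤ κ) (H : Cst τ g Q R CF DF Cb G)
    (h : ∃ (C₀ : ℕ) (D : ℝ), 0 < D ∧ ∀ᶠ K : ℕ in atTop, ∃ (Q₀ : ℕ) (ε : ℝ), (Q₀ : ℝ) + 1 ≤ Real.exp (D * (K : ℝ) ^ (2 * κ)) ∧ 0 ≤ ε ∧
      ε ≤ (1 / 2) ^ (12 * K) ∧ ∀ h < g, ∀ e < Q, ∀ u₀ : ℕ, ∃ u : ℕ, u₀ ≤ u ∧ u < u₀ + C₀ * K ∧ u % Q = e ∧
        ∀ h' < g, ∀ u' : ℕ, ¬ (h' = h ∧ u' = u) → (1 / 2 : ℝ) ^ (12 * K) < τ h' ^ u' / τ h ^ u → τ h' ^ u' / τ h ^ u < 2 ^ (12 * K) →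
          (τ h' ^ u' ≤ τ h ^ u ∧ EqA (τ h ^ u / τ h' ^ u') Q₀ ε) ∨ (τ h ^ u ≤ τ h' ^ u' ∧ EqA (τ h' ^ u' / τ h ^ u) Q₀ ε)) :
    ∀ᶠ K : ℕ in atTop, ∃ (Q₀ : ℕ) (ε : ℝ), 0 ≤ ε ∧ ε ≤ (1 / 2) ^ (12 * K) ∧ ∀ h < g, ∀ e < Q, ∀ ℓ : ℝ, 0 < ℓ → ℓ ≤ 1 → ∃ u : ℕ, u % Q = e ∧
      ((Q₀ : ℝ) + 1) * 2 ^ (24 * K) ≤ τ h ^ u * ℓ ∧ τ h ^ u * (ℓ / 2 ^ (K ^ (2 * κ + 1))) ≤ 2 * (1 / 2) ^ (12 * K) ∧
        ∀ h' < g, ∀ u' : ℕ, ¬ (h' = h ∧ u' = u) → (1 / 2 : ℝ) ^ (12 * K) < τ h' ^ u' / τ h ^ u → τ h' ^ u' / τ h ^ u < 2 ^ (12 * K) →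
          (τ h' ^ u' ≤ τ h ^ u ∧ EqA (τ h ^ u / τ h' ^ u') Q₀ ε) ∨ (τ h ^ u ≤ τ h' ^ u' ∧ EqA (τ h' ^ u' / τ h ^ u) Q₀ ε) := by
  obtain ⟨C₀, D, hD, hev⟩ := h
  obtain ⟨D', hD'⟩ := pow_unbounded_of_one_lt (Real.exp D) (show (1 : ℝ) < 2 by norm_num)
  filter_upwards [hev, eventually_ge_atTop (D' + 36 + DF * C₀ + DF), eventually_ge_atTop 1] with K hK hK2 hK1
  obtain ⟨Q₀, ε, hQ₀, hε0, hε, hmain⟩ := hK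
  refine ⟨Q₀, ε, hε0, hε, fun h hh e he ℓ hℓ hℓ1 => ?_⟩
  have ht : 1 < τ h := H.hτ h hh
  have htD : τ h ≤ 2 ^ DF := (le_self_pow₀ ht.le (by have := H.hQ; omega)).trans (H.hDF h hh)
  have hX : (1 : ℝ) ≤ ((Q₀ : ℝ) + 1) * 2 ^ (24 * K) := by
    refine one_le_mul_of_one_le_of_one_le ?_ (one_le_pow₀ (by norm_num))
    have : (0 : ℝ) ≤ Q₀ := Nat.cast_nonneg _
    linarith
  obtain ⟨u₀, hu1, hu2⟩ := first_exponent ht htD hℓ hℓ1 hX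
  obtain ⟨u, h1, h2, h3, h4⟩ := hmain h hh e he u₀
  refine ⟨u, h3, hu1.trans ?_, ?_, h4⟩
  · exact mul_le_mul_of_nonneg_right (pow_le_pow_right₀ ht.le h1) hℓ.le
  · -- the numerical inequality of the exponents
    have hnum : D' * K ^ (2 * κ) + 24 * K + DF + DF * (C₀ * K) + 12 * K ≤ K ^ (2 * κ + 1) := by
      have e1 : K ≤ K ^ (2 * κ) := Nat.le_self_pow (by omega) K
      have e2 : 1 ≤ K ^ (2 * κ) := Nat.one_le_pow _ _ (by omega)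
      calc D' * K ^ (2 * κ) + 24 * K + DF + DF * (C₀ * K) + 12 * K
          = D' * K ^ (2 * κ) + 36 * K + DF * C₀ * K + DF * 1 := by ring
        _ ≤ D' * K ^ (2 * κ) + 36 * K ^ (2 * κ) + DF * C₀ * K ^ (2 * κ) + DF * K ^ (2 * κ) := by gcongr
        _ = (D' + 36 + DF * C₀ + DF) * K ^ (2 * κ) := by ring
        _ ≤ K * K ^ (2 * κ) := Nat.mul_le_mul_right _ hK2
        _ = K ^ (2 * κ + 1) := by ring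
    have hQ' : (Q₀ : ℝ) + 1 ≤ 2 ^ (D' * K ^ (2 * κ)) := by
      refine hQ₀.trans ?_
      have e1 : D * (K : ℝ) ^ (2 * κ) = ((K ^ (2 * κ) : ℕ) : ℝ) * D := by push_cast; ring
      rw [e1, Real.exp_nat_mul, pow_mul (2 : ℝ) D']
      exact pow_le_pow_left₀ (Real.exp_pos _).le hD'.le _
    have hu3 : τ h ^ u * ℓ ≤ 2 ^ (D' * K ^ (2 * κ) + 24 * K + DF + DF * (C₀ * K)) := by
      have e1 : τ h ^ u ≤ τ h ^ u₀ * (2 ^ DF) ^ (C₀ * K) := by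
        obtain ⟨d, rfl⟩ := Nat.exists_eq_add_of_le h1
        rw [pow_add]
        refine mul_le_mul_of_nonneg_left ?_ (pow_nonneg (by linarith) _)
        calc τ h ^ d ≤ τ h ^ (C₀ * K) := pow_le_pow_right₀ ht.le (by omega)
          _ ≤ (2 ^ DF) ^ (C₀ * K) := pow_le_pow_left₀ (by linarith) htD _
      calc τ h ^ u * ℓ ≤ (τ h ^ u₀ * (2 ^ DF) ^ (C₀ * K)) * ℓ := mul_le_mul_of_nonneg_right e1 hℓ.le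
        _ = (τ h ^ u₀ * ℓ) * (2 ^ DF) ^ (C₀ * K) := by ring
        _ ≤ (((Q₀ : ℝ) + 1) * 2 ^ (24 * K) * 2 ^ DF) * (2 ^ DF) ^ (C₀ * K) := mul_le_mul_of_nonneg_right hu2 (by positivity)
        _ ≤ (2 ^ (D' * K ^ (2 * κ)) * 2 ^ (24 * K) * 2 ^ DF) * (2 ^ DF) ^ (C₀ * K) := by gcongr
        _ = 2 ^ (D' * K ^ (2 * κ) + 24 * K + DF + DF * (C₀ * K)) := by rw [pow_add, pow_add, pow_add, pow_mul 2 DF]
    have hp : (0 : ℝ) < 2 ^ (K ^ (2 * κ + 1)) := by positivity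
    have hp' : (0 : ℝ) < 2 ^ (12 * K) := by positivity
    have hfin : τ h ^ u * ℓ * 2 ^ (12 * K) ≤ 2 ^ (K ^ (2 * κ + 1)) := by
      calc τ h ^ u * ℓ * 2 ^ (12 * K) ≤ 2 ^ (D' * K ^ (2 * κ) + 24 * K + DF + DF * (C₀ * K)) * 2 ^ (12 * K) :=
            mul_le_mul_of_nonneg_right hu3 hp'.le
        _ = 2 ^ (D' * K ^ (2 * κ) + 24 * K + DF + DF * (C₀ * K) + 12 * K) := by rw [← pow_add]
        _ ≤ 2 ^ (K ^ (2 * κ + 1)) := pow_le_pow_right₀ (by norm_num) hnum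
    have e2 : τ h ^ u * (ℓ / 2 ^ (K ^ (2 * κ + 1))) = τ h ^ u * ℓ / 2 ^ (K ^ (2 * κ + 1)) := by ring
    have e3 : (1 / 2 : ℝ) ^ (12 * K) = 1 / 2 ^ (12 * K) := by rw [one_div_pow]
    rw [e2, e3, div_le_iff₀ hp]
    have e4 : τ h ^ u * ℓ ≤ 2 ^ (K ^ (2 * κ + 1)) / 2 ^ (12 * K) := by
      rw [le_div_iff₀ hp']
      exact hfin
    have e5 : (0 : ℝ) ≤ 2 ^ (K ^ (2 * κ + 1)) / 2 ^ (12 * K) := by positivity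
    calc τ h ^ u * ℓ ≤ 2 ^ (K ^ (2 * κ + 1)) / 2 ^ (12 * K) := e4
      _ ≤ 2 * (2 ^ (K ^ (2 * κ + 1)) / 2 ^ (12 * K)) := by linarith
      _ = 2 * (1 / 2 ^ (12 * K)) * 2 ^ (K ^ (2 * κ + 1)) := by ring

end Pool.Agent.Helper31.LD3
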